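import Pool.Agent.Y228.PC.Cf4
import Pool.Agent.Y228.PK.Reg
import Pool.Agent.Y228.PL.Glk

/-!
# The local p-adic zeta functions of all polydiscs in four variables, compact faces
-/

set_option autoImplicit false

namespace Pool.Agent.Y228.PK

open MeasureTheory
open Pool.Agent.H628R4.TP Pool.Agent.W425.MM
open Pool.Agent.W425.ND (spa Nondeg prodb prodb_eval parts onFace)
open Pool.Agent.W425.PN (qpoly)
open Pool.Agent.W426.SM (gord IsRay face)
open Pool.Agent.W425.SV (RelV Kil1)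
open Pool.Agent.W425.SG (UnitEq)
open Pool.Agent.TH216.HD hiding IsRay
open Pool.Agent.TH216.HDNL
open Pool.Agent.TH216.ND
open Pool.Agent.TH216.MF (RelG KilU KRelJ RecJ krelJ_phi)
open Pool.Agent.TH216.LX (InN Vert)
open Pool.Agent.Y231.N4
open Pool.Agent.Y228.ND4
open Pool.Agent.Y228.PL
open Pool.Agent.Y228.PC (ZMbP zmbP zmaBP ZMlP polesLP levelsP)
open Pool.Agent.Y229.CF

variable {r : ℕ}

/-- the recurrences at the bad levels -/
theorem hb_ndK (hr : 0 < r) (v : Fin r → Fin 4 → ℕ) (hv : Function.Injective v)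
    (V : Finset (Fin r)) (hV : Spans v V) (P : ℚ → Prop)
    (hP : ∀ α, ¬ P α → ∃ (θ : Fin V.card → ℤ) (p : Polynomial ℂ),
      RelG (vV v V) (Kil1 (vV v V)) (KilU (vV v V) θ) p ∧ p.eval (α : ℂ) ≠ 0)
    (q : ℕ) (hq : 2 ≤ q) (e : Finset (Fin r) → ℂ)
    (he : KRelJ q v Finset.univ e) (he' : KRelB q v e) (T0 : ℂ) (hT0 : T0 ≠ 0) (σ : ℚ)
    (hσ : HypS4 (vV v V) (σ : ℝ) ∧ ¬ P (-σ))
    (hlog : Real.log ‖T0‖ / Real.log q = (σ : ℝ)) : RecK q v e T0 := by
  classical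
  have hcard := (gord_vV hr v V hV 0).1
  obtain ⟨hL, hPσ⟩ := hσ
  obtain ⟨θ, p, hrel, hp⟩ := hP _ hPσ
  have hma : ∀ j', ∃ j, v j = vV v V j' := fun j' => ⟨iV V j', rfl⟩
  have hmb : ∀ j, InN (vV v V) Finset.univ (v j) := fun j =>
    inN_vV v V Finset.univ Finset.univ (spansD_univ hV) (Finset.Subset.refl _) j
  have he1 := krelJ_phi v (vV v V) hv hma q Finset.univ e he
  have he2 := krelB_phi v (vV v V) hr hcard hma hmb q e he'
  have h1 : ((-Real.log ‖T0‖ / Real.log q : ℝ) : ℂ) = ((-σ : ℚ) : ℂ) := by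
    rw [neg_div, hlog]
    push_cast
    rfl
  obtain ⟨Q, hQ, hrec⟩ := recK4 q hq (vV v V) p θ hrel _ he1 he2 T0 hT0
    (by rw [h1]; exact hp) (by rw [hlog]; exact hL)
  refine ⟨Q, hQ, fun κ hκ => ?_⟩
  filter_upwards [hrec κ hκ] with t ht
  rw [← ht]
  refine Finset.sum_congr rfl fun m _ => ?_
  rw [aK_phiN v (vV v V) hr hcard hma hmb q e κ hκ]

/-- **The local p-adic zeta functions of polynomials in four variables which are nondegenerate
for the compact faces.** -/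
theorem padic_cfK (hr : 0 < r) (v : Fin r → Fin 4 → ℕ) (c : Fin r → ℚ)
    (hv : Function.Injective v) (hv0 : ∀ j, v j ≠ 0) (hc : ∀ j, c j ≠ 0)
    (hnd : NondegC v (fun j => ((c j : ℚ) : ℂ))) :
    ∃ S : Finset ℕ, ∀ (p : ℕ) [Fact p.Prime], p ∉ S →
      ∀ [MeasurableSpace (Fin 4 → PadicInt p)] [BorelSpace (Fin 4 → PadicInt p)],
      ∀ κ : Fin 4 → ℕ, (∀ i, 1 ≤ κ i) → ∀ F : ℂ → ℂ, MeromorphicOn F Set.univ →
        (∀ s : ℂ, 0 < s.re →
          F s = ∫ x in {x : Fin 4 → PadicInt p | ∀ i, ‖x i‖ ≤ (p : ℝ) ^ (-(κ i : ℤ))},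
                  ((‖MvPolynomial.eval₂ (algebraMap ℚ (Padic p))
                    (fun i => ((x i : PadicInt p) : Padic p)) (qpoly v c)‖ : ℝ) : ℂ) ^ s
                  ∂(Measure.addHaar : Measure (Fin 4 → PadicInt p))) →
        ∀ s₀ : ℂ, meromorphicOrderAt F s₀ < 0 → ∀ b : Polynomial ℂ,
          IsLocalBFunction (spa v (fun j => ((c j : ℚ) : ℂ))) b →
          ∃ i : ℤ, b.eval ((s₀.re : ℂ) - i) = 0 := by
  classical
  have hne : NeZero r := ⟨by omega⟩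
  have hND : NonDP v (fun j => algebraMap ℚ ℂ (c j)) := taskB1' ℚ ℂ v c hr hnd
  have hZ := zmbP 0 v c 1 one_pos (zmaBP v c hc hr hND)
  have hZ0 : ZMlP 0 v c 1 := by
    obtain ⟨S, hS⟩ := hZ
    refine ⟨S, fun p hp hpS _ _ => ?_⟩
    obtain ⟨V, C₀, C₁, hV, -, h⟩ := hS p hpS
    exact ⟨V, C₀, C₁, hV, h⟩
  obtain ⟨S1, hS1⟩ := polesLP v c hr hZ0
  obtain ⟨S2, hS2⟩ := padic_regK hr v hv c hZ
  obtain ⟨V, hV, hP, hL⟩ := levelsP hr v hv hv0 _ hnd
  refine ⟨S1 ∪ S2, fun p hpf hp _ _ κ hκ F hF hFI s₀ hs₀ b hb => ?_⟩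
  rw [Finset.mem_union, not_or] at hp
  obtain ⟨h1, h2⟩ := of_local' v (by omega) _ hv hv0 hnd b hb
  rcases hS1 p hp.1 κ hκ F hF hFI s₀ hs₀ with h | ⟨a, ha, hg, h⟩
  · refine ⟨0, ?_⟩
    have h3 : ((s₀.re : ℂ) - ((0 : ℤ) : ℂ)) = -1 := by
      rw [h]
      push_cast
      ring
    rw [h3, h1]
  · set σ : ℚ := ((∑ i, a i : ℕ) : ℚ) / gord v a with hσ
    have hgq : ((gord v a : ℕ) : ℚ) ≠ 0 := by exact_mod_cast hg.ne'
    have hre : s₀.re = ((-σ : ℚ) : ℝ) := by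
      rw [h, hσ]
      push_cast
      ring
    by_cases hPσ : PW True (spa v (fun j => ((c j : ℚ) : ℂ))) (-σ)
    · obtain ⟨i, hi⟩ := hPσ b h1 h2
      refine ⟨i, ?_⟩
      rw [hre]
      rw [← hi]
      push_cast
      rfl
    · have hs1 : s₀.re ≠ -1 := by
        intro h3
        apply hPσ
        intro b' hb1 _
        refine ⟨0, ?_⟩
        have h4 : (-σ : ℚ) = -1 := by
          rw [h3] at hre
          exact_mod_cast hre.symm
        rw [h4]
        push_cast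
        rw [sub_zero]
        exact hb1
      exfalso
      have hp2 : 2 ≤ p := hpf.out.two_le
      have hlog : Real.log p ≠ 0 := (Real.log_pos (by exact_mod_cast (by omega : 1 < p))).ne'
      have h5 := hS2 p hp.2 κ hκ F hF hFI s₀ hs1 (fun e he he' => by
        refine hb_ndK hr v hv V hV (PW True (spa v (fun j => ((c j : ℚ) : ℂ)))) hP p hp2 e he he'
          ((p : ℂ) ^ (-s₀)) ?_ σ ⟨hL a ha hg hPσ, hPσ⟩ ?_
        · rw [Ne, Complex.cpow_eq_zero_iff]
          push Not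
          intro h6
          exact absurd h6 (by exact_mod_cast (by omega : p ≠ 0))
        · rw [Complex.norm_natCast_cpow_of_pos (by omega), Real.log_rpow (by positivity),
            Complex.neg_re, hre]
          field_simp
          push_cast
          ring)
      exact absurd hs₀ (not_lt.2 h5)


/-- homogeneous polynomials: all the faces are compact -/
lemma nondeg_of_hom {N : ℕ} (v : Fin r → Fin N → ℕ) (c : Fin r → ℂ) (d : ℕ)
    (hd : ∀ j, ∑ i, v j i = d) (h : NondegC v c) : Nondeg v c := by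
  classical
  intro w z hz
  set M : ℝ := 1 + ∑ i, |w i| with hM
  have hpos : ∀ i, 0 < w i + M := by
    intro i
    have h1 := Finset.single_le_sum (f := fun i => |w i|) (fun i _ => abs_nonneg _)
      (Finset.mem_univ i)
    have h2 := neg_abs_le (w i)
    have h3 : |w i| ≤ ∑ i, |w i| := h1
    rw [hM]
    linarith
  have hsum : ∀ j, ∑ i, (w i + M) * (v j i : ℝ) = ∑ i, w i * (v j i : ℝ) + M * d := by
    intro j
    have h1 : (∑ i, (v j i : ℝ)) = d := by exact_mod_cast congrArg (fun n : ℕ => (n : ℝ)) (hd j)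
    simp only [add_mul, Finset.sum_add_distrib]
    rw [← Finset.mul_sum, h1]
  have hface : ∀ j, onFace v (fun i => w i + M) j ↔ onFace v w j := by
    intro j
    unfold onFace
    refine forall_congr' fun j' => ?_
    rw [hsum, hsum]
    constructor
    · intro h1
      linarith
    · intro h1
      linarith
  have h1 := h (fun i => w i + M) hpos z hz
  simp only [hface] at h1
  exact h1

/-- **The p-adic zeta functions of all the polydiscs in the maximal ideal, and of `ℤ_p ^ 4` for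
homogeneous polynomials.** -/
theorem padic_cf4k (hr : 0 < r) (v : Fin r → Fin 4 → ℕ) (c : Fin r → ℚ)
    (hv : Function.Injective v) (hv0 : ∀ j, v j ≠ 0) (hc : ∀ j, c j ≠ 0)
    (hnd : NondegC v (fun j => ((c j : ℚ) : ℂ))) :
    ∃ S : Finset ℕ, ∀ (p : ℕ) [Fact p.Prime], p ∉ S →
      ∀ [MeasurableSpace (Fin 4 → PadicInt p)] [BorelSpace (Fin 4 → PadicInt p)],
      ∀ κ : Fin 4 → ℕ, ((∀ i, 1 ≤ κ i) ∨ (κ = 0 ∧ ∃ d, ∀ j, ∑ i, v j i = d)) →
      ∀ F : ℂ → ℂ, MeromorphicOn F Set.univ →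
        (∀ s : ℂ, 0 < s.re →
          F s = ∫ x in {x : Fin 4 → PadicInt p | ∀ i, ‖x i‖ ≤ (p : ℝ) ^ (-(κ i : ℤ))},
                  ((‖MvPolynomial.eval₂ (algebraMap ℚ (Padic p))
                    (fun i => ((x i : PadicInt p) : Padic p)) (qpoly v c)‖ : ℝ) : ℂ) ^ s
                  ∂(Measure.addHaar : Measure (Fin 4 → PadicInt p))) →
        ∀ s₀ : ℂ, meromorphicOrderAt F s₀ < 0 → ∀ b : Polynomial ℂ,
          IsLocalBFunction (spa v (fun j => ((c j : ℚ) : ℂ))) b →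
          ∃ i : ℤ, b.eval ((s₀.re : ℂ) - i) = 0 := by
  obtain ⟨S1, h1⟩ := padic_cfK hr v c hv hv0 hc hnd
  by_cases hd : ∃ d, ∀ j, ∑ i, v j i = d
  · obtain ⟨d, hd'⟩ := hd
    obtain ⟨S2, h2⟩ := padic_nd4k hr v c hv hv0 hc (nondeg_of_hom v _ d hd' hnd)
    refine ⟨S1 ∪ S2, fun p _ hp _ _ κ hκ F hF hFI s₀ hs₀ => ?_⟩
    rw [Finset.mem_union, not_or] at hp
    rcases hκ with hκ | ⟨rfl, -⟩
    · exact h1 p hp.1 κ hκ F hF hFI s₀ hs₀
    · exact h2 p hp.2 0 (Or.inr ⟨d, hd'⟩) F hF hFI s₀ hs₀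
  · refine ⟨S1, fun p _ hp _ _ κ hκ F hF hFI s₀ hs₀ => ?_⟩
    rcases hκ with hκ | ⟨-, hκ⟩
    · exact h1 p hp κ hκ F hF hFI s₀ hs₀
    · exact absurd hκ hd

end Pool.Agent.Y228.PK
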