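import Pool.Agent.Y231.N4.K3
import Pool.Agent.TH216.LX.Lx1

/-!
# The recurrences for the points `x ≥ κ`

The ideal-theoretic form of the main theorem allows every multiplier, in particular a monomial, which
shifts the cone. So there are recurrences for the sums over the points `x` with `x i ≥ κ i`, for all
`κ` with positive entries, with the same denominator.
-/

set_option autoImplicit false

namespace Pool.Agent.Y228.PK

open MvPolynomial Filter Pool.Agent.W425.SV
open Pool.Agent.TH216.MF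
open Pool.Agent.W426.SM (gord face)
open Pool.Agent.W803.SM (filt gord_le exists_gord mem_filt filt_nonempty summable_half)
open Pool.Agent.Y231.N4

variable {r N : ℕ}

/-- the coefficients, for the points `x ≥ κ` -/
noncomputable def aK (q : ℕ) (v : Fin r → Fin N → ℕ) (e : Finset (Fin r) → ℂ)
    (κ : Fin N → ℕ) (t : ℤ) : ℂ :=
  ∑' x : Fin N → ℕ, open Classical in if ∀ i, κ i ≤ x i then
    (q : ℂ)⁻¹ ^ (∑ i, x i) * Wt v e t x else 0

/-- the multiplier -/
noncomputable def wK (q : ℕ) (v : Fin r → Fin N → ℕ) (κ : Fin N → ℕ) :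
    MvPolynomial (Fin r) ℂ :=
  ∏ i, (C ((q : ℂ)⁻¹) * ∏ j, X j ^ v j i) ^ κ i

lemma act_powK (v : Fin r → ℕ) (a : ℂ) (F : Fn r) (m : ℕ) : ∀ (y : Fin r → ℤ),
    act r ((C a * ∏ j, X j ^ v j) ^ m) F y = a ^ m * F (fun j => y j + (m : ℤ) * (v j : ℤ)) := by
  induction m with
  | zero =>
    intro y
    rw [pow_zero, act_one]
    simp
  | succ m ih =>
    intro y
    rw [pow_succ', act_mul, act_mon, ih, pow_succ]
    have e1 : (fun j => y j + (v j : ℤ) + (m : ℤ) * (v j : ℤ)) =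
        fun j => y j + ((m + 1 : ℕ) : ℤ) * (v j : ℤ) := by
      funext j
      push_cast
      ring
    rw [e1]
    ring

lemma act_wK (q : ℕ) (v : Fin r → Fin N → ℕ) (κ : Fin N → ℕ) (F : Fn r) (J : Finset (Fin N)) :
    ∀ y : Fin r → ℤ, act r (∏ i ∈ J, (C ((q : ℂ)⁻¹) * ∏ j, X j ^ v j i) ^ κ i) F y =
      (q : ℂ)⁻¹ ^ (∑ i ∈ J, κ i) * F (fun j => y j + ∑ i ∈ J, (κ i : ℤ) * (v j i : ℤ)) := by
  classical
  induction J using Finset.induction_on with
  | empty =>
    intro y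
    rw [Finset.prod_empty, act_one]
    simp
  | insert a J ha ih =>
    intro y
    rw [Finset.prod_insert ha, act_mul, act_powK (fun j => v j a), ih, Finset.sum_insert ha,
      pow_add]
    have e1 : (fun j => y j + (κ a : ℤ) * (v j a : ℤ) + ∑ i ∈ J, (κ i : ℤ) * (v j i : ℤ)) =
        fun j => y j + ∑ i ∈ insert a J, (κ i : ℤ) * (v j i : ℤ) := by
      funext j
      rw [Finset.sum_insert ha]
      ring
    rw [e1]
    ring

lemma coeff_aK (q : ℕ) (v : Fin r → Fin N → ℕ) (e : Finset (Fin r) → ℂ) (κ : Fin N → ℕ)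
    (t : ℤ) (x : Fin N →₀ ℕ) : MvPowerSeries.coeff x
      (gen q v (act r (wK q v κ * kE e) (FG fun _ => 1)) ∅ (t + 1)) =
      (q : ℂ)⁻¹ ^ (∑ i, (x i + κ i)) * Wt v e t (fun i => x i + κ i) := by
  classical
  rw [coeff_gen, if_pos (by simp), act_mul]
  unfold wK
  rw [act_wK q v κ _ Finset.univ]
  have h1 : ∀ z : Fin N →₀ ℕ, act r (kE e) (FG fun _ => 1)
      (fun j => ∑ i, (z i : ℤ) * (v j i : ℤ) - (t + 1)) = Wt v e t (fun i => z i) := by
    intro z
    have h2 := coeff_aT q v e t z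
    rw [coeff_gen, if_pos (by simp)] at h2
    by_cases hq : (q : ℂ)⁻¹ ^ (∑ i, z i) = 0
    · -- independent of `q`
      have h3 := coeff_aT 1 v e t z
      rw [coeff_gen, if_pos (by simp)] at h3
      simpa using h3
    · exact mul_left_cancel₀ hq h2
  have h2 := h1 (Finsupp.equivFunOnFinite.symm fun i => x i + κ i)
  have h3 : (fun j => ∑ i, (x i : ℤ) * (v j i : ℤ) - (t + 1) + ∑ i, (κ i : ℤ) * (v j i : ℤ)) =
      fun j => ∑ i, (((Finsupp.equivFunOnFinite.symm fun i => x i + κ i) i : ℕ) : ℤ) *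
        (v j i : ℤ) - (t + 1) := by
    funext j
    simp only [Finsupp.equivFunOnFinite_symm_apply_apply]
    push_cast
    simp only [add_mul, Finset.sum_add_distrib]
    ring
  rw [h3, h2]
  have h5 : ∑ i, (x i + κ i) = ∑ i, x i + ∑ i, κ i := Finset.sum_add_distrib
  rw [h5, pow_add]
  simp only [Finsupp.equivFunOnFinite_symm_apply_apply]
  ring

lemma summable_aK (q : ℕ) (hq : 2 ≤ q) (v : Fin r → Fin N → ℕ) (e : Finset (Fin r) → ℂ)
    (κ : Fin N → ℕ) (t : ℤ) :
    Summable fun x : Fin N → ℕ => open Classical in if ∀ i, κ i ≤ x i then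
      (q : ℂ)⁻¹ ^ (∑ i, x i) * Wt v e t x else 0 := by
  classical
  refine Summable.of_norm_bounded (g := fun x : Fin N → ℕ => (∏ i, ((1 : ℝ) / 2) ^ x i) *
    ∑ J, ‖e J‖) (summable_half.mul_right _) fun x => ?_
  have hn : 0 ≤ ∑ J, ‖e J‖ := Finset.sum_nonneg fun _ _ => norm_nonneg _
  split_ifs
  · rw [norm_mul]
    exact mul_le_mul (norm_pow_inv q hq x) (norm_Wt v e t x) (norm_nonneg _) (by positivity)
  · rw [norm_zero]
    exact mul_nonneg (Finset.prod_nonneg fun i _ => by positivity) hn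

lemma hasReg_aK (q : ℕ) (hq : 2 ≤ q) (v : Fin r → Fin N → ℕ) (e : Finset (Fin r) → ℂ)
    (κ : Fin N → ℕ) (t : ℤ) :
    HasReg (gen q v (act r (kE e * wK q v κ) (FG fun _ => 1)) ∅ (t + 1)) (aK q v e κ t) := by
  classical
  rw [mul_comm (kE e)]
  obtain ⟨c, hc⟩ := (tame_one q hq v (wK q v κ * kE e)).reg ∅ (t + 1)
  set f : (Fin N → ℕ) → ℂ := fun x => if ∀ i, κ i ≤ x i then
      (q : ℂ)⁻¹ ^ (∑ i, x i) * Wt v e t x else 0 with hf
  have hinj : Function.Injective fun x : Fin N →₀ ℕ => (fun i => x i + κ i : Fin N → ℕ) := by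
    intro x y hxy
    ext i
    have := congrFun hxy i
    simp only at this
    omega
  have h1 : (fun x : Fin N →₀ ℕ => MvPowerSeries.coeff x
      (gen q v (act r (wK q v κ * kE e) (FG fun _ => 1)) ∅ (t + 1))) =
      fun x : Fin N →₀ ℕ => f (fun i => x i + κ i) := by
    funext x
    rw [coeff_aK]
    simp only [hf]
    rw [if_pos fun i => by omega]
  have hfs : Summable f := summable_aK q hq v e κ t
  have hsum : HasSum (fun x : Fin N →₀ ℕ => f (fun i => x i + κ i)) (∑' x, f x) := by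
    refine (hinj.hasSum_iff (f := f) (a := ∑' x, f x) ?_).2 hfs.hasSum
    intro x hx
    simp only [hf]
    rw [if_neg]
    intro h
    apply hx
    refine ⟨Finsupp.equivFunOnFinite.symm fun i => x i - κ i, ?_⟩
    funext i
    simp only [Finsupp.equivFunOnFinite_symm_apply_apply]
    have := h i
    omega
  have h3 := hc.hasSum (by rw [h1]; exact hsum.summable)
  rw [h1, hsum.tsum_eq] at h3
  have h4 : aK q v e κ t = c := h3
  rw [h4]
  exact hc

/-- the recurrences, with the same denominator for all `κ` -/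
def RecK (q : ℕ) (v : Fin r → Fin N → ℕ) (e : Finset (Fin r) → ℂ) (T0 : ℂ) : Prop :=
  ∃ Q : Polynomial ℂ, Q.eval T0 ≠ 0 ∧ ∀ κ : Fin N → ℕ, (∀ i, 1 ≤ κ i) →
    ∀ᶠ t : ℤ in atTop, ∑ m ∈ Finset.range (Q.natDegree + 1), Q.coeff m * aK q v e κ (t - m) = 0

lemma rec_aK (q : ℕ) (hq : 2 ≤ q) (v : Fin r → Fin N → ℕ) (e : Finset (Fin r) → ℂ)
    (κ : Fin N → ℕ) (Q : Polynomial ℂ)
    (h : Z q v (Polynomial.aeval (tau r) Q * (kE e * wK q v κ))) :
    ∀ᶠ t : ℤ in atTop,
      ∑ m ∈ Finset.range (Q.natDegree + 1), Q.coeff m * aK q v e κ (t - m) = 0 := by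
  have h1 : Tendsto (fun t : ℤ => t + 1) atTop atTop :=
    tendsto_atTop_add_const_right _ _ tendsto_id
  filter_upwards [h1.eventually h] with t ht
  have h2 : HasReg (gen q v (act r (Polynomial.aeval (tau r) Q * (kE e * wK q v κ))
      (FG fun _ => 1)) ∅ (t + 1))
      (∑ m ∈ Finset.range (Q.natDegree + 1), Q.coeff m * aK q v e κ (t - m)) := by
    have h3 : act r (Polynomial.aeval (tau r) Q * (kE e * wK q v κ)) (FG fun _ => 1) =
        ∑ m ∈ Finset.range (Q.natDegree + 1),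
          Q.coeff m • act r (tau r ^ m * (kE e * wK q v κ)) (FG fun _ => 1) := by
      rw [Polynomial.aeval_eq_sum_range, Finset.sum_mul, map_sum, LinearMap.sum_apply]
      refine Finset.sum_congr rfl fun m _ => ?_
      rw [smul_mul_assoc, map_smul, LinearMap.smul_apply]
    rw [h3, gen_sum]
    refine HasReg.sum _ _ _ fun m _ => ?_
    rw [gen_smul, gen_tau_pow]
    refine HasReg.smul _ ?_
    have h4 : t + 1 - (m : ℤ) = (t - m) + 1 := by ring
    rw [h4]
    exact hasReg_aK q hq v e κ (t - m)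
  exact (ht.unique h2).symm

lemma wJ_wK (q : ℕ) (v : Fin r → Fin N → ℕ) (κ : Fin N → ℕ) (hκ : ∀ i, 1 ≤ κ i) :
    wJ q v Finset.univ * wK q v (fun i => κ i - 1) = wK q v κ := by
  classical
  unfold wJ wK
  rw [Finset.compl_univ, Finset.prod_empty, one_mul, ← Finset.prod_mul_distrib]
  refine Finset.prod_congr rfl fun i _ => ?_
  rw [← pow_succ', Nat.sub_add_cancel (hκ i)]

/-- the recurrences, with the relations for two directions -/
theorem recK4 (q : ℕ) (hq : 2 ≤ q) (v : Fin r → Fin N → ℕ) (p : Polynomial ℂ)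
    (θ : Fin r → ℤ) (hrel : RelG v (Kil1 v) (KilU v θ) p)
    (e : Finset (Fin r) → ℂ)
    (he1 : KRelJ q v Finset.univ e) (he2 : KRelB q v e) (T0 : ℂ) (hT0 : T0 ≠ 0)
    (hp : p.eval ((-Real.log ‖T0‖ / Real.log q : ℝ) : ℂ) ≠ 0)
    (hσ : HypS4 v (Real.log ‖T0‖ / Real.log q)) : RecK q v e T0 := by
  have hp0 : p ≠ 0 := by
    rintro rfl
    exact hp Polynomial.eval_zero
  set D : ℤ := ∑ j, |θ j| with hD
  have hθD : ∀ j, 0 ≤ D - θ j := by
    intro j
    have h1 := Finset.single_le_sum (f := fun j => |θ j|) (fun j _ => abs_nonneg _)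
      (Finset.mem_univ j)
    have h3 := le_abs_self (θ j)
    have h4 : |θ j| ≤ D := h1
    linarith
  obtain ⟨Q, hQ, hZ⟩ := coreU q hq v p θ D (fun j => (D - θ j).toNat)
    (fun j => Int.toNat_of_nonneg (hθD j)) hrel _ (kern_univ hq v e he1) T0 hT0 hp0
    (crit4 q hq v e he1 he2 T0 hT0 _ hσ)
  have h0 : p.rootMultiplicity ((-Real.log ‖T0‖ / Real.log q : ℝ) : ℂ) = 0 :=
    Polynomial.rootMultiplicity_eq_zero hp
  refine ⟨Q, hQ, fun κ hκ => rec_aK q hq v e κ Q ?_⟩
  have hZ := hZ (wK q v fun i => κ i - 1)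
  rw [h0, pow_zero, mul_one, mul_assoc (kE e), wJ_wK q v κ hκ] at hZ
  exact hZ

section

variable {R R' : ℕ} (m : Fin R → Fin N → ℕ) (m' : Fin R' → Fin N → ℕ) (hR : 0 < R) (hR' : 0 < R')
  (ha : ∀ j', ∃ j, m j = m' j')
  (hb : ∀ j, Pool.Agent.TH216.LX.InN m' Finset.univ (m j))

include hR hR' ha hb

/-- the coefficients only depend on the Newton polyhedron -/
lemma aK_phiN (q : ℕ) (e : Finset (Fin R) → ℂ) (κ : Fin N → ℕ) (hκ : ∀ i, 1 ≤ κ i) (t : ℤ) :
    aK q m' (fun τ => e (PhiC m m' τ)) κ t = aK q m e κ t := by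
  classical
  unfold aK
  refine tsum_congr fun x => ?_
  by_cases hxJ : ∀ i, κ i ≤ x i
  swap
  · rw [if_neg hxJ, if_neg hxJ]
  rw [if_pos hxJ, if_pos hxJ]
  have hx0 : ∀ i, x i ≠ 0 := fun i => by
    have h1 := hxJ i
    have h2 := hκ i
    omega
  have hg := Pool.Agent.TH216.LX.gord_np m m' Finset.univ hR hR' ha hb x
  have h1 : Wt m' (fun τ => e (PhiC m m' τ)) t x = Wt m e t x := by
    rcases le_or_gt 0 t with h0 | h0
    · obtain ⟨t', rfl⟩ := Int.eq_ofNat_of_zero_le h0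
      have h2 := Wt_nat hR' m' (fun τ => e (PhiC m m' τ)) t' x
      have h3 := Wt_nat hR m e t' x
      rw [h2, h3, phi_empty,
        Pool.Agent.TH216.LX.phi_filtN m m' Finset.univ hR hR' ha hb x fun i _ => hx0 i, hg]
    · have hneg : ∀ {s : ℕ} (w : Fin s → Fin N → ℕ) (e' : Finset (Fin s) → ℂ),
          Wt w e' t x = e' ∅ := by
        intro s w e'
        unfold Wt
        rw [if_pos fun j => by
          have : (0 : ℤ) ≤ ((∑ i, x i * w j i : ℕ) : ℤ) := by positivity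
          omega]
        congr 1
        rw [Finset.filter_eq_empty_iff]
        intro j _ hj
        have : (0 : ℤ) ≤ ((∑ i, x i * w j i : ℕ) : ℤ) := by positivity
        omega
      rw [hneg, hneg, phi_empty]
  rw [h1]

end

end Pool.Agent.Y228.PK
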