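import Pool.Agent.Y228.PL.Ser5
import Pool.Agent.Y228.PK.Rec

/-!
# The p-adic zeta function of a polydisc and the recurrences
-/

set_option autoImplicit false

namespace Pool.Agent.Y228.PK

open MeasureTheory Filter Topology
open Pool.Agent.W426.SM (gord ford)
open Pool.Agent.W803.SM (filt summable_half exists_gord)
open Pool.Agent.W428.MOT (amin)
open Pool.Agent.W425.PN (ford_eq qpoly spoly_eq)
open Pool.Agent.W425.BF (gam aux)
open Pool.Agent.TH216.MF
open Pool.Agent.TH216.G3 (RS recJ_iff)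
open Pool.Agent.Y231.N4
open Pool.Agent.W422.LP (PD Wk)
open Pool.Agent.W880.SM Pool.Agent.W426.SM
open Pool.Agent.Y228.PL

variable {r : ℕ}

/-- the coefficients only depend on the values at the faces -/
lemma aK_dec (q : ℕ) (hq : 2 ≤ q) (v : Fin r → Fin 4 → ℕ) (ρ : Fin 4 → ℕ)
    (hρ : ∀ i, 1 ≤ ρ i) (e : Finset (Fin r) → ℂ)
    {ι : Type} [Fintype ι] (d : ι → ℂ) (e' : ι → Finset (Fin r) → ℂ)
    (h : ∀ τ, Fc v τ → e τ = ∑ κ, d κ * e' κ τ) (t : ℤ) :
    aK q v e ρ t = ∑ κ, d κ * aK q v (e' κ) ρ t := by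
  classical
  unfold aK
  simp only [← tsum_mul_left]
  rw [← Summable.tsum_finsetSum fun κ _ => (summable_aK q hq v (e' κ) ρ t).mul_left _]
  refine tsum_congr fun x => ?_
  by_cases hx : ∀ i, ρ i ≤ x i
  · simp only [if_pos hx]
    unfold Wt
    by_cases ht : ∀ j, t ≤ ((∑ i, x i * v j i : ℕ) : ℤ)
    · simp only [if_pos ht]
      rw [h _ (fc_of v t x (fun i => (hρ i).trans (hx i)) ht), Finset.mul_sum]
      refine Finset.sum_congr rfl fun κ _ => ?_
      ring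
    · simp only [if_neg ht]
      simp
  · simp only [if_neg hx]
    simp

/-- the products with the series are polynomials -/
lemma rs_of_recK {N : ℕ} {p : ℕ} {v : Fin r → Fin N → ℕ} {e : Finset (Fin r) → ℂ} {T0 : ℂ}
    (ρ : Fin N → ℕ) (hρ : ∀ i, 1 ≤ ρ i) (h : RecK p v e T0) :
    RS T0 (PowerSeries.mk fun t : ℕ => aK p v e ρ t) := by
  obtain ⟨Q, hQ, h1⟩ := h
  obtain ⟨A, hA⟩ := rec_poly (fun t => aK p v e ρ t) Q (h1 ρ hρ)
  exact ⟨Q, A, hQ, hA⟩

/-- **The recurrences for the numbers of points.** -/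
theorem recEK (p : ℕ) (hp : 2 ≤ p) (v : Fin r → Fin 4 → ℕ) (hv : Function.Injective v)
    (ρ : Fin 4 → ℕ) (hρ : ∀ i, 1 ≤ ρ i) (E : ℂ) (U : Finset (Fin r) → ℂ) (h : ERel p v E U) (T0 : ℂ)
    (hrec : ∀ e : Finset (Fin r) → ℂ, KRelJ p v Finset.univ e → KRelB p v e →
      RecK p v e T0) :
    RS T0 (PowerSeries.mk fun t : ℕ => aK p v (fun τ => U τ - E * (p : ℂ)⁻¹) ρ t) := by
  classical
  obtain ⟨d, hd⟩ := decE p hp v E U h
  have h1 : (PowerSeries.mk fun t : ℕ => aK p v (fun τ => U τ - E * (p : ℂ)⁻¹) ρ t) =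
      ∑ κ, PowerSeries.C (d κ) *
        PowerSeries.mk fun t : ℕ => aK p v (eP p v Finset.univ (pB v κ)) ρ t := by
    ext t
    rw [map_sum, PowerSeries.coeff_mk]
    simp only [PowerSeries.coeff_C_mul, PowerSeries.coeff_mk]
    exact aK_dec p hp v ρ hρ _ d _ hd t
  rw [h1]
  refine RS.sum _ _ fun κ _ => RS.cmul _ ?_
  exact rs_of_recK ρ hρ (hrec _ (krelJ_pB p hp κ) (krelB_pB hv p hp κ))

open Classical in
/-- the generating function of the coefficients -/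
lemma tsum_aK (hr : 0 < r) (q : ℕ) (hq : 2 ≤ q) (v : Fin r → Fin 4 → ℕ)
    (ρ : Fin 4 → ℕ) (e : Finset (Fin r) → ℂ) (T : ℂ) (hT : ‖T‖ < 1) :
    ∑' t : ℕ, aK q v e ρ t * T ^ t =
      ∑' x : Fin 4 → ℕ, if ∀ i, ρ i ≤ x i then (q : ℂ)⁻¹ ^ (∑ i, x i) *
        (e ∅ * ∑ t ∈ Finset.range (gord v x), T ^ t + e (filt v x) * T ^ gord v x) else 0 := by
  let f : ℕ → (Fin 4 → ℕ) → ℂ := fun t x => if ∀ i, ρ i ≤ x i then
    (q : ℂ)⁻¹ ^ (∑ i, x i) * Wt v e t x * T ^ t else 0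
  have hsum : Summable (Function.uncurry f) := by
    have h1 : Summable fun t : ℕ => ‖T‖ ^ t := summable_geometric_of_lt_one (norm_nonneg _) hT
    have h2 : Summable fun x : Fin 4 → ℕ => (∏ i, ((1 : ℝ) / 2) ^ x i) * ∑ J, ‖e J‖ :=
      summable_half.mul_right _
    have hn1 : (0 : ℕ → ℝ) ≤ fun t : ℕ => ‖T‖ ^ t := fun t => pow_nonneg (norm_nonneg T) t
    have hn2 : (0 : (Fin 4 → ℕ) → ℝ) ≤ fun x : Fin 4 → ℕ =>
        (∏ i, ((1 : ℝ) / 2) ^ x i) * ∑ J, ‖e J‖ := fun x =>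
      mul_nonneg (Finset.prod_nonneg fun i _ => by positivity)
        (Finset.sum_nonneg fun J _ => norm_nonneg (e J))
    have h3 := h1.mul_of_nonneg h2 hn1 hn2
    refine Summable.of_norm_bounded h3 fun p => ?_
    show ‖if ∀ i, ρ i ≤ p.2 i then (q : ℂ)⁻¹ ^ (∑ i, p.2 i) * Wt v e p.1 p.2 * T ^ p.1 else 0‖ ≤ _
    split_ifs
    · rw [norm_mul, norm_mul, mul_comm, norm_pow T p.1]
      have hb := mul_le_mul (norm_pow_inv q hq p.2) (norm_Wt v e p.1 p.2) (norm_nonneg _)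
        (Finset.prod_nonneg fun i _ => by positivity)
      exact mul_le_mul_of_nonneg_left hb (pow_nonneg (norm_nonneg T) p.1)
    · rw [norm_zero]
      exact mul_nonneg (hn1 p.1) (hn2 p.2)
  have h4 : ∀ t : ℕ, aK q v e ρ t * T ^ t = ∑' x : Fin 4 → ℕ, f t x := by
    intro t
    unfold aK
    rw [← tsum_mul_right]
    refine tsum_congr fun x => ?_
    show _ = if ∀ i, ρ i ≤ x i then (q : ℂ)⁻¹ ^ (∑ i, x i) * Wt v e t x * T ^ t else 0
    by_cases hx : ∀ i, ρ i ≤ x i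
    · rw [if_pos hx, if_pos hx]
    · rw [if_neg hx, if_neg hx, zero_mul]
  simp only [h4]
  rw [← hsum.tsum_comm]
  refine tsum_congr fun x => ?_
  by_cases hx : ∀ i, ρ i ≤ x i
  · rw [if_pos hx]
    have h5 : ∀ t : ℕ, f t x =
        (q : ℂ)⁻¹ ^ (∑ i, x i) * (Wt v e t x * T ^ t) := fun t => by
      show (if ∀ i, ρ i ≤ x i then (q : ℂ)⁻¹ ^ (∑ i, x i) * Wt v e t x * T ^ t else 0) = _
      rw [if_pos hx, mul_assoc]
    simp only [h5]
    rw [tsum_mul_left]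
    congr 1
    rw [tsum_eq_sum (s := Finset.range (gord v x + 1)) (fun t ht => by
      rw [Finset.mem_range, not_lt] at ht
      rw [Wt_nat hr, if_neg (by omega), if_neg (by omega), zero_mul]), Finset.sum_range_succ,
      Wt_nat hr, if_neg (lt_irrefl _), if_pos rfl, Finset.mul_sum]
    congr 1
    refine Finset.sum_congr rfl fun t ht => ?_
    rw [Wt_nat hr, if_pos (Finset.mem_range.1 ht)]
  · rw [if_neg hx]
    have h5 : ∀ t : ℕ, f t x = 0 := fun t => by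
      show (if ∀ i, ρ i ≤ x i then (q : ℂ)⁻¹ ^ (∑ i, x i) * Wt v e t x * T ^ t else 0) = _
      rw [if_neg hx]
    simp only [h5, tsum_zero]

lemma norm_aK (q : ℕ) (hq : 2 ≤ q) (v : Fin r → Fin 4 → ℕ) (ρ : Fin 4 → ℕ)
    (e : Finset (Fin r) → ℂ) : ∃ K : ℝ, ∀ t : ℤ, ‖aK q v e ρ t‖ ≤ K := by
  classical
  refine ⟨∑' x : Fin 4 → ℕ, (∏ i, ((1 : ℝ) / 2) ^ x i) * ∑ J, ‖e J‖, fun t => ?_⟩
  refine tsum_of_norm_bounded ((summable_half.mul_right _).hasSum) fun x => ?_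
  split_ifs
  · rw [norm_mul]
    exact mul_le_mul (norm_pow_inv q hq x) (norm_Wt v e t x) (norm_nonneg _) (by positivity)
  · rw [norm_zero]
    exact mul_nonneg (Finset.prod_nonneg fun i _ => by positivity)
      (Finset.sum_nonneg fun J _ => norm_nonneg (e J))

open Classical in
/-- the values of the series -/
theorem series_regK (hr : 0 < r) (q : ℕ) (hq : 2 ≤ q) (v : Fin r → Fin 4 → ℕ)
    (ρ : Fin 4 → ℕ) (e : Finset (Fin r) → ℂ) (Q A : Polynomial ℂ)
    (hA : (Q : PowerSeries ℂ) * PowerSeries.mk (fun t : ℕ => aK q v e ρ t) =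
      (A : PowerSeries ℂ)) : ∀ T : ℂ, ‖T‖ < 1 →
      Q.eval T * (∑' x : Fin 4 → ℕ, if ∀ i, ρ i ≤ x i then (q : ℂ)⁻¹ ^ (∑ i, x i) *
        (e ∅ * ∑ t ∈ Finset.range (gord v x), T ^ t + e (filt v x) * T ^ gord v x) else 0) =
        A.eval T := by
  set a : ℕ → ℂ := fun t => aK q v e ρ t with ha
  intro T hT
  have hs2 := tsum_aK hr q hq v ρ e T hT
  rw [← hs2]
  obtain ⟨K, hK⟩ := norm_aK q hq v ρ e
  have hsn : Summable fun t : ℕ => ‖a t * T ^ t‖ := by
    refine Summable.of_nonneg_of_le (fun _ => norm_nonneg _) (fun t => ?_)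
      ((summable_geometric_of_lt_one (norm_nonneg T) hT).mul_left K)
    rw [norm_mul, norm_pow]
    exact mul_le_mul_of_nonneg_right (hK t) (pow_nonneg (norm_nonneg T) t)
  have hev : ∀ E : Polynomial ℂ, E.eval T = ∑' i, E.coeff i * T ^ i := by
    intro E
    rw [Polynomial.eval_eq_sum_range, tsum_eq_sum]
    intro i hi
    rw [Polynomial.coeff_eq_zero_of_natDegree_lt, zero_mul]
    rw [Finset.mem_range] at hi
    omega
  have hs : Summable fun i => ‖Q.coeff i * T ^ i‖ := by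
    refine summable_of_ne_finset_zero (s := Finset.range (Q.natDegree + 1)) fun i hi => ?_
    rw [Polynomial.coeff_eq_zero_of_natDegree_lt, zero_mul, norm_zero]
    rw [Finset.mem_range] at hi
    omega
  rw [hev Q, hev A, tsum_mul_tsum_eq_tsum_sum_antidiagonal_of_summable_norm hs hsn]
  refine tsum_congr fun n => ?_
  have h3 := congrArg (PowerSeries.coeff n) hA
  rw [PowerSeries.coeff_mul, Polynomial.coeff_coe] at h3
  rw [← h3, Finset.sum_mul]
  refine Finset.sum_congr rfl fun kl hkl => ?_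
  rw [Finset.HasAntidiagonal.mem_antidiagonal] at hkl
  rw [Polynomial.coeff_coe, PowerSeries.coeff_mk, ← hkl, pow_add]
  ring

open Classical in
/-- the relation between the two series -/
theorem series_gamK (p : ℕ) (hp : 2 ≤ p) (v : Fin r → Fin 4 → ℕ) (ρ : Fin 4 → ℕ)
    (C₀ C₁ : Finset (Fin r) → ℝ) (hCR : CRelB v p C₀ C₁) :
    ∃ (E : ℂ) (U : Finset (Fin r) → ℂ) (K : ℂ), ERel p v E U ∧ ∀ T : ℂ, ‖T‖ < 1 →
      (∑' x : Fin 4 → ℕ, if ∀ i, ρ i ≤ x i then
        (p : ℂ)⁻¹ ^ (∑ i, x i) * T ^ gord v x * (gam p C₀ C₁ (filt v x)).eval T else 0) =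
        K - (1 - T) * ∑' x : Fin 4 → ℕ, if ∀ i, ρ i ≤ x i then (p : ℂ)⁻¹ ^ (∑ i, x i) *
          ((U ∅ - E * (p : ℂ)⁻¹) * ∑ t ∈ Finset.range (gord v x), T ^ t +
            (U (filt v x) - E * (p : ℂ)⁻¹) * T ^ gord v x) else 0 := by
  obtain ⟨E, U, h0, h1, hU, hE, h2, h3⟩ := hCR
  have hp0 : (p : ℂ) ≠ 0 := by exact_mod_cast (by omega : p ≠ 0)
  set e : Finset (Fin r) → ℂ := fun J => (U J : ℂ) - (E : ℂ) * (p : ℂ)⁻¹ with he
  refine ⟨(E : ℂ), fun J => (U J : ℂ), ∑' x : Fin 4 → ℕ, if ∀ i, ρ i ≤ x i then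
    (p : ℂ)⁻¹ ^ (∑ i, x i) * e ∅ else 0, ⟨?_, ?_, ?_, ?_⟩, ?_⟩
  · exact_mod_cast congrArg (fun x : ℝ => (x : ℂ)) hU
  · rw [hE]
    push_cast
    rfl
  · intro i j0 J hj0 hJ
    exact_mod_cast congrArg (fun x : ℝ => (x : ℂ)) (h2 i j0 J hj0 hJ)
  · intro i l hil τ0 τ1 τ2 t0 t1 t2 n1 n2 hx
    exact_mod_cast congrArg (fun x : ℝ => (x : ℂ)) (h3 i l hil τ0 τ1 τ2 t0 t1 t2 n1 n2 hx)
  · intro T hT
    have hgam : ∀ J, (gam p C₀ C₁ J).eval T = e ∅ - e J * (1 - T) := by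
      intro J
      unfold gam
      rw [h0, h1, he]
      simp only [Polynomial.eval_add, Polynomial.eval_mul, Polynomial.eval_C, Polynomial.eval_sub,
        Polynomial.eval_one, Polynomial.eval_X]
      rw [hU]
      push_cast
      field_simp
      ring
    have hb : ∀ J, ‖e J‖ ≤ ∑ J, ‖e J‖ := fun J =>
      Finset.single_le_sum (f := fun J => ‖e J‖) (fun _ _ => norm_nonneg _) (Finset.mem_univ _)
    have hTn : ∀ n : ℕ, ‖T ^ n‖ ≤ 1 := fun n => by
      rw [norm_pow]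
      exact pow_le_one₀ (norm_nonneg _) hT.le
    have hterm : ∀ x : Fin 4 → ℕ, (if ∀ i, ρ i ≤ x i then (p : ℂ)⁻¹ ^ (∑ i, x i) * T ^ gord v x *
        (gam p C₀ C₁ (filt v x)).eval T else 0) =
        (if ∀ i, ρ i ≤ x i then (p : ℂ)⁻¹ ^ (∑ i, x i) * e ∅ else 0) -
          (1 - T) * (if ∀ i, ρ i ≤ x i then (p : ℂ)⁻¹ ^ (∑ i, x i) *
          (e ∅ * ∑ t ∈ Finset.range (gord v x), T ^ t + e (filt v x) * T ^ gord v x) else 0) := by
      intro x
      split_ifs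
      · rw [hgam]
        have hg : (∑ t ∈ Finset.range (gord v x), T ^ t) * (1 - T) = 1 - T ^ gord v x := by
          have := geom_sum_mul_neg T (gord v x)
          rw [this]
        have : (1 - T) * ((p : ℂ)⁻¹ ^ (∑ i, x i) *
            (e ∅ * ∑ t ∈ Finset.range (gord v x), T ^ t + e (filt v x) * T ^ gord v x)) =
            (p : ℂ)⁻¹ ^ (∑ i, x i) * (e ∅ * ((∑ t ∈ Finset.range (gord v x), T ^ t) * (1 - T)) +
              e (filt v x) * (1 - T) * T ^ gord v x) := by ring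
        rw [this, hg]
        ring
      · simp
    have hnn : 0 ≤ ∑ J, ‖e J‖ := Finset.sum_nonneg fun J _ => norm_nonneg (e J)
    have hs1 : Summable fun x : Fin 4 → ℕ =>
        if ∀ i, ρ i ≤ x i then (p : ℂ)⁻¹ ^ (∑ i, x i) * e ∅ else 0 := by
      refine Summable.of_norm_bounded (g := fun x : Fin 4 → ℕ => (∏ i, ((1 : ℝ) / 2) ^ x i) *
        ∑ J, ‖e J‖) (summable_half.mul_right _) fun x => ?_
      split_ifs
      · rw [norm_mul]
        exact mul_le_mul (norm_pow_inv p hp x) (hb _) (norm_nonneg _)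
          (Finset.prod_nonneg fun i _ => by positivity)
      · rw [norm_zero]
        exact mul_nonneg (Finset.prod_nonneg fun i _ => by positivity) hnn
    have hs3 : Summable fun x : Fin 4 → ℕ => if ∀ i, ρ i ≤ x i then
        (p : ℂ)⁻¹ ^ (∑ i, x i) * T ^ gord v x * (gam p C₀ C₁ (filt v x)).eval T else 0 := by
      refine Summable.of_norm_bounded (g := fun x : Fin 4 → ℕ => (∏ i, ((1 : ℝ) / 2) ^ x i) *
        (∑ J, ‖e J‖ + (∑ J, ‖e J‖) * ‖1 - T‖)) (summable_half.mul_right _) fun x => ?_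
      split_ifs
      · rw [norm_mul, norm_mul, hgam, mul_assoc]
        have h3 : ‖T ^ gord v x‖ * ‖e ∅ - e (filt v x) * (1 - T)‖ ≤
            ∑ J, ‖e J‖ + (∑ J, ‖e J‖) * ‖1 - T‖ := by
          have h4 : ‖e ∅ - e (filt v x) * (1 - T)‖ ≤ ∑ J, ‖e J‖ + (∑ J, ‖e J‖) * ‖1 - T‖ := by
            refine (norm_sub_le _ _).trans (add_le_add (hb _) ?_)
            rw [norm_mul]
            exact mul_le_mul_of_nonneg_right (hb _) (norm_nonneg _)
          calc _ ≤ 1 * ‖e ∅ - e (filt v x) * (1 - T)‖ :=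
                mul_le_mul_of_nonneg_right (hTn _) (norm_nonneg _)
            _ ≤ _ := by rw [one_mul]; exact h4
        exact mul_le_mul (norm_pow_inv p hp x) h3 (by positivity)
          (Finset.prod_nonneg fun i _ => by positivity)
      · rw [norm_zero]
        exact mul_nonneg (Finset.prod_nonneg fun i _ => by positivity)
          (add_nonneg hnn (mul_nonneg hnn (norm_nonneg _)))
    have hs2 : Summable fun x : Fin 4 → ℕ => (1 - T) * (if ∀ i, ρ i ≤ x i then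
        (p : ℂ)⁻¹ ^ (∑ i, x i) * (e ∅ * ∑ t ∈ Finset.range (gord v x), T ^ t +
          e (filt v x) * T ^ gord v x) else 0) := by
      have := hs1.sub hs3
      refine this.congr fun x => ?_
      rw [hterm]
      ring
    rw [tsum_congr hterm, hs1.tsum_sub hs2, tsum_mul_left]

end Pool.Agent.Y228.PK
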